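import Mathlib
import Pool.Agent.Lib.MP_14ee70_nt.TY.Defs2
import Pool.Agent.Lib.MP_14ee70_nt.TY.Four

/-!
# Project TY, file E/Bohr: Bohr sets in `ZMod Q`

`card_Bohr_ge` (pigeonhole): the points `x = 0, 1, …, ⌊θ H⌋` (different in `ZMod Q`, at least `θ H` of them), boxes
`(⌊(σ_i x).val / (Q ρ)⌋)_i`, at most `⌈1/ρ⌉^q ≤ (2/ρ)^q` of them; one box contains at least `θ H (ρ/2)^q`
points; the differences `x - x_0` with one of them lie in `Bohr H σ ρ θ`.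
`char_Bohr`: `r0 - ∑ δ_i σ_i0 = ρ'` is an integer with `2π|ρ'|/h < 1/2`, `r = ∑ δ_i σ_i + ρ'` in `ZMod Q`, so
`‖r x / Q‖ ≤ ∑ ‖σ_i x / Q‖ + |ρ'| |x| / Q ≤ q ρ + (h/(4π)) θ H / Q ≤ q ρ + θ`.
-/

namespace MP14ee70.TY

open Finset

variable {Q : ℕ} [NeZero Q]

theorem mem_Bohr {H : ℝ} {q : ℕ} {σ : Fin q → ZMod Q} {ρ θ : ℝ} {x : ZMod Q} :
    x ∈ Bohr H σ ρ θ ↔ |(x.valMinAbs : ℝ)| ≤ θ * H ∧ ∀ i, nrm (σ i * x) ≤ ρ := by
  simp only [Bohr, mem_filter, mem_univ, true_and]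

theorem vma_le (x : ZMod Q) (j : ℤ) (h : (j : ZMod Q) = x) :
    |(x.valMinAbs : ℝ)| ≤ |(j : ℝ)| := by
  have h1 : x.valMinAbs.natAbs ≤ j.natAbs :=
    ZMod.natAbs_min_of_le_div_two Q _ _ (by rw [ZMod.coe_valMinAbs, h])
      (ZMod.natAbs_valMinAbs_le x)
  have h2 : |x.valMinAbs| ≤ |j| := by
    rw [Int.abs_eq_natAbs, Int.abs_eq_natAbs]
    exact_mod_cast h1
  exact_mod_cast h2

theorem Bohr_mono {H : ℝ} (hH : 0 ≤ H) {q : ℕ} (σ : Fin q → ZMod Q) {ρ ρ' θ θ' : ℝ} (hρ : ρ ≤ ρ')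
    (hθ : θ ≤ θ') : Bohr H σ ρ θ ⊆ Bohr H σ ρ' θ' := by
  intro x hx
  simp only [Bohr, mem_filter, mem_univ, true_and] at hx ⊢
  exact ⟨hx.1.trans (mul_le_mul_of_nonneg_right hθ hH), fun i => (hx.2 i).trans hρ⟩

theorem zero_mem_Bohr {H : ℝ} (hH : 0 ≤ H) {q : ℕ} (σ : Fin q → ZMod Q) {ρ θ : ℝ} (hρ : 0 ≤ ρ)
    (hθ : 0 ≤ θ) : (0 : ZMod Q) ∈ Bohr H σ ρ θ := by
  rw [mem_Bohr]
  refine ⟨?_, fun i => ?_⟩
  · rw [ZMod.valMinAbs_zero, Int.cast_zero, abs_zero]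
    exact mul_nonneg hθ hH
  · rw [mul_zero, nrm_zero]
    exact hρ

theorem neg_mem_Bohr {H : ℝ} {q : ℕ} {σ : Fin q → ZMod Q} {ρ θ : ℝ} {x : ZMod Q}
    (hx : x ∈ Bohr H σ ρ θ) : -x ∈ Bohr H σ ρ θ := by
  rw [mem_Bohr] at hx ⊢
  refine ⟨?_, fun i => ?_⟩
  · refine (vma_le (-x) (-x.valMinAbs) (by rw [Int.cast_neg, ZMod.coe_valMinAbs])).trans ?_
    rw [Int.cast_neg, abs_neg]
    exact hx.1
  · rw [mul_neg, nrm_neg]
    exact hx.2 i

theorem add_mem_Bohr {H : ℝ} {q : ℕ} {σ : Fin q → ZMod Q} {ρ ρ' θ θ' : ℝ} {x x' : ZMod Q}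
    (hx : x ∈ Bohr H σ ρ θ) (hx' : x' ∈ Bohr H σ ρ' θ') : x + x' ∈ Bohr H σ (ρ + ρ') (θ + θ') := by
  rw [mem_Bohr] at hx hx' ⊢
  refine ⟨?_, fun i => ?_⟩
  · refine (vma_le (x + x') (x.valMinAbs + x'.valMinAbs) (by
      rw [Int.cast_add, ZMod.coe_valMinAbs, ZMod.coe_valMinAbs])).trans ?_
    rw [Int.cast_add, add_mul]
    exact (abs_add_le _ _).trans (add_le_add hx.1 hx'.1)
  · rw [mul_add]
    exact (nrm_add_le _ _).trans (add_le_add (hx.2 i) (hx'.2 i))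

theorem sum_mem_Bohr {H : ℝ} (hH : 0 ≤ H) {q a : ℕ} {σ : Fin q → ZMod Q} {ρ θ : ℝ} (hρ : 0 ≤ ρ)
    (hθ : 0 ≤ θ) (u : Fin a → ZMod Q) (hu : ∀ i, u i ∈ Bohr H σ ρ θ) :
    ∑ i, u i ∈ Bohr H σ (a * ρ) (a * θ) := by
  rw [mem_Bohr]
  refine ⟨?_, fun i => ?_⟩
  · refine (vma_le (∑ i, u i) (∑ i, (u i).valMinAbs) (by
      rw [Int.cast_sum]
      exact Finset.sum_congr rfl fun i _ => ZMod.coe_valMinAbs _)).trans ?_
    rw [Int.cast_sum]
    refine (Finset.abs_sum_le_sum_abs _ _).trans ?_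
    refine (Finset.sum_le_sum fun i _ => (mem_Bohr.1 (hu i)).1).trans ?_
    rw [Finset.sum_const, Finset.card_univ, Fintype.card_fin, nsmul_eq_mul, mul_assoc]
  · rw [Finset.mul_sum]
    refine (nrm_sum_le _ _).trans ?_
    refine (Finset.sum_le_sum fun j _ => (mem_Bohr.1 (hu j)).2 i).trans ?_
    rw [Finset.sum_const, Finset.card_univ, Fintype.card_fin, nsmul_eq_mul]

theorem card_Bohr_ge (H : ℝ) (hH : 1 ≤ H) (hHQ : H ≤ Q) {q : ℕ} (σ : Fin q → ZMod Q) {ρ θ : ℝ}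
    (hρ : 0 < ρ) (hρ1 : ρ ≤ 1) (hθ : 0 < θ) (hθ1 : θ ≤ 1 / 2) :
    θ * H * (ρ / 2) ^ q ≤ ((Bohr H σ ρ θ).card : ℝ) := by
  classical
  have hQ0 : (0 : ℝ) < Q := by exact_mod_cast Nat.pos_of_ne_zero (NeZero.ne Q)
  have hθH : 0 < θ * H := by positivity
  set m := ⌊θ * H⌋₊ with hm
  have hmle : (m : ℝ) ≤ θ * H := Nat.floor_le hθH.le
  have hmQ : (m : ℝ) < Q := by nlinarith
  have hmQ' : m < Q := by exact_mod_cast hmQ
  set n := ⌈1 / ρ⌉₊ with hn
  have hn1 : (1 : ℝ) / ρ ≤ n := Nat.le_ceil _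
  have h1ρ : (1 : ℝ) ≤ 1 / ρ := by
    rw [le_div_iff₀ hρ]
    linarith
  have hn2 : (n : ℝ) ≤ 2 / ρ := by
    have h1 := Nat.ceil_lt_add_one (show (0 : ℝ) ≤ 1 / ρ by positivity)
    have h2 : (2 : ℝ) / ρ = 1 / ρ + 1 / ρ := by ring
    rw [h2]
    linarith
  let f : ℕ → Fin q → ℕ := fun x i => ⌊((σ i * (x : ZMod Q)).val : ℝ) / (Q * ρ)⌋₊
  have hf : ∀ x ∈ Finset.range (m + 1), f x ∈ Fintype.piFinset fun _ : Fin q => Finset.range n := by
    intro x _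
    rw [Fintype.mem_piFinset]
    intro i
    rw [Finset.mem_range]
    have h1 : ((σ i * (x : ZMod Q)).val : ℝ) < Q := by exact_mod_cast ZMod.val_lt _
    have h2 : ((σ i * (x : ZMod Q)).val : ℝ) / (Q * ρ) < n := by
      refine lt_of_lt_of_le ?_ hn1
      rw [div_lt_div_iff₀ (by positivity) hρ]
      nlinarith
    exact (Nat.floor_lt (by positivity)).2 h2
  have hcard : ((Fintype.piFinset fun _ : Fin q => Finset.range n).card : ℝ) = (n : ℝ) ^ q := by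
    rw [Fintype.card_piFinset]
    simp
  have hn0 : 0 < n := by
    have : (0 : ℝ) < n := by linarith
    exact_mod_cast this
  obtain ⟨y, -, hy⟩ := Finset.exists_le_card_fiber_of_nsmul_le_card_of_maps_to
    (b := θ * H * (ρ / 2) ^ q) hf ⟨fun _ => 0, by
      rw [Fintype.mem_piFinset]
      exact fun _ => Finset.mem_range.2 hn0⟩ (by
      rw [nsmul_eq_mul, hcard, Finset.card_range]
      have h1 : (n : ℝ) ^ q * (ρ / 2) ^ q ≤ 1 := by
        rw [← mul_pow]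
        refine pow_le_one₀ (by positivity) ?_
        calc (n : ℝ) * (ρ / 2) ≤ 2 / ρ * (ρ / 2) :=
              mul_le_mul_of_nonneg_right hn2 (by positivity)
          _ = 1 := by field_simp
      have h2 : θ * H < (m : ℝ) + 1 := Nat.lt_floor_add_one _
      push_cast
      calc (n : ℝ) ^ q * (θ * H * (ρ / 2) ^ q) = θ * H * ((n : ℝ) ^ q * (ρ / 2) ^ q) := by ring
        _ ≤ θ * H * 1 := mul_le_mul_of_nonneg_left h1 hθH.le
        _ ≤ (m : ℝ) + 1 := by linarith)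
  set F := (Finset.range (m + 1)).filter (fun x => f x = y) with hF
  have hpos : (0 : ℝ) < F.card := lt_of_lt_of_le (by positivity) hy
  have hne : F.Nonempty := by
    rw [← Finset.card_pos]
    exact_mod_cast hpos
  obtain ⟨x0, hx0⟩ := hne
  refine hy.trans ?_
  have hle : F.card ≤ (Bohr H σ ρ θ).card := by
    refine Finset.card_le_card_of_injOn (fun x => (x : ZMod Q) - (x0 : ZMod Q)) ?_ ?_
    · intro x hx
      have hx' := (Finset.mem_filter.1 (Finset.mem_coe.1 hx))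
      have hx0' := (Finset.mem_filter.1 hx0)
      have hxm : x ≤ m := Nat.lt_succ_iff.1 (Finset.mem_range.1 hx'.1)
      have hx0m : x0 ≤ m := Nat.lt_succ_iff.1 (Finset.mem_range.1 hx0'.1)
      rw [Finset.mem_coe, mem_Bohr]
      refine ⟨?_, fun i => ?_⟩
      · refine (vma_le _ ((x : ℤ) - x0) (by push_cast; rfl)).trans ?_
        refine le_trans ?_ hmle
        push_cast
        have h1 : (x : ℝ) ≤ m := by exact_mod_cast hxm
        have h2 : (x0 : ℝ) ≤ m := by exact_mod_cast hx0m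
        have h3 : (0 : ℝ) ≤ x := Nat.cast_nonneg _
        have h4 : (0 : ℝ) ≤ x0 := Nat.cast_nonneg _
        rw [abs_le]
        constructor <;> linarith
      · have hfe : f x i = f x0 i := by rw [hx'.2, hx0'.2]
        have hj : ((((σ i * (x : ZMod Q)).val : ℤ) - ((σ i * (x0 : ZMod Q)).val : ℤ) : ℤ) :
            ZMod Q) = σ i * ((x : ZMod Q) - (x0 : ZMod Q)) := by
          push_cast
          rw [ZMod.natCast_zmod_val, ZMod.natCast_zmod_val, mul_sub]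
        rw [← hj]
        refine (nrm_intCast_le _).trans ?_
        rw [div_le_iff₀ hQ0]
        push_cast
        have hQρ : (0 : ℝ) < Q * ρ := by positivity
        have a1 := Nat.floor_le (show (0 : ℝ) ≤ ((σ i * (x : ZMod Q)).val : ℝ) / (Q * ρ) by
          positivity)
        have a2 := Nat.lt_floor_add_one (((σ i * (x : ZMod Q)).val : ℝ) / (Q * ρ))
        have b1 := Nat.floor_le (show (0 : ℝ) ≤ ((σ i * (x0 : ZMod Q)).val : ℝ) / (Q * ρ) by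
          positivity)
        have b2 := Nat.lt_floor_add_one (((σ i * (x0 : ZMod Q)).val : ℝ) / (Q * ρ))
        have hfe' : (⌊((σ i * (x : ZMod Q)).val : ℝ) / (Q * ρ)⌋₊ : ℝ) =
            ⌊((σ i * (x0 : ZMod Q)).val : ℝ) / (Q * ρ)⌋₊ := by exact_mod_cast hfe
        rw [hfe'] at a1 a2
        have c1 : ((σ i * (x : ZMod Q)).val : ℝ) / (Q * ρ) * (Q * ρ) =
            (σ i * (x : ZMod Q)).val := div_mul_cancel₀ _ hQρ.ne'
        have c2 : ((σ i * (x0 : ZMod Q)).val : ℝ) / (Q * ρ) * (Q * ρ) =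
            (σ i * (x0 : ZMod Q)).val := div_mul_cancel₀ _ hQρ.ne'
        rw [abs_le]
        constructor
        · nlinarith
        · nlinarith
    · intro x hx x' hx' he
      have hx1 := Nat.lt_succ_iff.1 (Finset.mem_range.1
        (Finset.mem_filter.1 (Finset.mem_coe.1 hx)).1)
      have hx2 := Nat.lt_succ_iff.1 (Finset.mem_range.1
        (Finset.mem_filter.1 (Finset.mem_coe.1 hx')).1)
      have h1 : (x : ZMod Q) = (x' : ZMod Q) := sub_left_injective he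
      rw [ZMod.natCast_eq_natCast_iff'] at h1
      rwa [Nat.mod_eq_of_lt (lt_of_le_of_lt hx1 hmQ'),
        Nat.mod_eq_of_lt (lt_of_le_of_lt hx2 hmQ')] at h1
  exact_mod_cast hle

theorem char_Bohr (h H : ℕ) (hQ : Q = h * H) {q : ℕ} (σ : Fin q → ZMod Q) (r : ZMod Q)
    (δ : Fin q → ℤ) (hδ : ∀ i, |δ i| ≤ 1)
    (hr : |2 * Real.pi * (r.valMinAbs : ℝ) / h
      - ∑ i, (δ i : ℝ) * (2 * Real.pi * ((σ i).valMinAbs : ℝ) / h)| < 1 / 2)
    {ρ θ : ℝ} (hρ : 0 ≤ ρ) (hθ : 0 ≤ θ) {x : ZMod Q} (hx : x ∈ Bohr (H : ℝ) σ ρ θ) :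
    nrm (r * x) ≤ q * ρ + θ := by
  have hQ0 : 0 < Q := Nat.pos_of_ne_zero (NeZero.ne Q)
  have hh0 : 0 < h := Nat.pos_of_ne_zero fun h0 => by
    rw [h0, zero_mul] at hQ
    omega
  have hH0 : 0 < H := Nat.pos_of_ne_zero fun h0 => by
    rw [h0, mul_zero] at hQ
    omega
  have hh0' : (0 : ℝ) < h := by exact_mod_cast hh0
  have hH0' : (0 : ℝ) < H := by exact_mod_cast hH0
  have hQ0' : (0 : ℝ) < Q := by exact_mod_cast hQ0
  have hπ := Real.pi_gt_three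
  rw [mem_Bohr] at hx
  set j : ℤ := r.valMinAbs - ∑ i, δ i * (σ i).valMinAbs with hj
  have hjr : |(j : ℝ)| ≤ h := by
    have h1 : 2 * Real.pi * (r.valMinAbs : ℝ) / h
        - ∑ i, (δ i : ℝ) * (2 * Real.pi * ((σ i).valMinAbs : ℝ) / h) =
        2 * Real.pi / h * j := by
      rw [hj]
      push_cast
      rw [mul_sub, Finset.mul_sum]
      congr 1
      · ring
      · exact Finset.sum_congr rfl fun i _ => by ring
    rw [h1, abs_mul, abs_of_pos (by positivity)] at hr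
    have h2 : 2 * Real.pi * |(j : ℝ)| < 1 / 2 * h := by
      have h3 : 2 * Real.pi / h * |(j : ℝ)| * h = 2 * Real.pi * |(j : ℝ)| := by
        field_simp
      rw [← h3]
      exact mul_lt_mul_of_pos_right hr hh0'
    nlinarith [abs_nonneg (j : ℝ)]
  have hrx : r * x = (∑ i, ((δ i : ℤ) : ZMod Q) * (σ i * x)) +
      ((j * x.valMinAbs : ℤ) : ZMod Q) := by
    rw [hj]
    push_cast
    rw [sub_mul, Finset.sum_mul]
    simp only [mul_assoc]
    ring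
  rw [hrx]
  refine (nrm_add_le _ _).trans (add_le_add ?_ ?_)
  · refine (nrm_sum_le _ _).trans ?_
    have h1 : ∀ i ∈ (Finset.univ : Finset (Fin q)),
        nrm (((δ i : ℤ) : ZMod Q) * (σ i * x)) ≤ ρ := by
      intro i _
      refine (nrm_intCast_mul_le _ _).trans ?_
      have h2 : |((δ i : ℤ) : ℝ)| ≤ 1 := by exact_mod_cast hδ i
      calc |((δ i : ℤ) : ℝ)| * nrm (σ i * x) ≤ 1 * ρ :=
            mul_le_mul h2 (hx.2 i) (nrm_nonneg _) zero_le_one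
        _ = ρ := one_mul _
    refine (Finset.sum_le_sum h1).trans ?_
    rw [Finset.sum_const, Finset.card_univ, Fintype.card_fin, nsmul_eq_mul]
  · refine (nrm_intCast_le _).trans ?_
    rw [div_le_iff₀ hQ0']
    push_cast
    rw [abs_mul]
    calc |(j : ℝ)| * |(x.valMinAbs : ℝ)| ≤ h * (θ * H) :=
          mul_le_mul hjr hx.1 (abs_nonneg _) hh0'.le
      _ = θ * Q := by
          rw [hQ]
          push_cast
          ring

end MP14ee70.TY
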