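import Mathlib
import Pool.Agent.Lib.MP_14ee70_nt.TY.E.Bohr

/-!
# Project TY, file E/BohrMain: the regular Bohr set

`ρ0 = 1/(100 q0)`, `θ0 = 1/100`, `C_i = Bohr H σ ((1 + i/I) ρ0) ((1 + i/I) θ0)`, `0 ≤ i ≤ I`,
`C2 = Bohr H σ (ρ0/(a I)) (θ0/(a I))`.  For some `i < I`: `#C_(i+1) ≤ 2 #C_i` (otherwise `#C_I > 2^I #C_0 ≥ 2^I ≥ Q`).
`C = C_i`, `Cp = C_(i+1)`.  `∑ u_i - c`: `sum_mem_Bohr`, `neg_mem_Bohr`, `add_mem_Bohr`, `Bohr_mono`
(`(1+i/I) ρ0 + a ρ0/(aI) = (1 + (i+1)/I) ρ0`).  For `r ∈ BAD`, `x ∈ C`: `char_Bohr` with `ρ ≤ 2ρ0`, `θ ≤ 2 θ0`: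
`nrm (r x) ≤ 2/100 + 2/100`, so `|ch (r x) - 1| ≤ 2π/25 ≤ 1/2` (`norm_ch_sub_one_le`).
`#C2 ≥ (θ0/(aI)) H (ρ0/(2aI))^q` (`card_Bohr_ge`), `q ≤ q0`.
-/

namespace MP14ee70.TY

open Finset

/-- Doubling fails at some step. -/
theorem exists_double {I Q : ℕ} (hI : 1 ≤ I) (hI2 : Q ≤ 2 ^ I) (c : ℕ → ℕ) (h0 : 1 ≤ c 0)
    (hQ : c I ≤ Q) : ∃ i < I, c (i + 1) ≤ 2 * c i := by
  by_contra hc
  push Not at hc
  have key : ∀ i ≤ I, 2 ^ i ≤ c i ∧ (1 ≤ i → 2 ^ i < c i) := by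
    intro i
    induction i with
    | zero => exact fun _ => ⟨by simpa using h0, fun h => absurd h (by norm_num)⟩
    | succ i ih =>
      intro hi
      have h1 := (ih (by omega)).1
      have h2 := hc i (by omega)
      have h3 : 2 ^ (i + 1) = 2 * 2 ^ i := by rw [pow_succ]; ring
      constructor
      · omega
      · intro _
        omega
  have := (key I le_rfl).2 hI
  omega

theorem bohr_main {Q : ℕ} [NeZero Q] (h H : ℕ) (hQ : Q = h * H) (q q0 a I : ℕ) (hq : q ≤ q0)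
    (hq0 : 1 ≤ q0) (ha : 1 ≤ a) (hI : 1 ≤ I) (hI2 : Q ≤ 2 ^ I) (σ : Fin q → ZMod Q)
    (BAD : Finset (ZMod Q))
    (hBAD : ∀ r ∈ BAD, ∃ δ : Fin q → ℤ, (∀ i, |δ i| ≤ 1) ∧
      |2 * Real.pi * (r.valMinAbs : ℝ) / h
        - ∑ i, (δ i : ℝ) * (2 * Real.pi * ((σ i).valMinAbs : ℝ) / h)| < 1 / 2) :
    ∃ C Cp C2 : Finset (ZMod Q), C.Nonempty ∧ C2.Nonempty ∧
      (∀ c ∈ C, ∀ u : Fin a → ZMod Q, (∀ i, u i ∈ C2) → (∑ i, u i) - c ∈ Cp) ∧
      (Cp.card : ℝ) ≤ 2 * C.card ∧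
      (∀ r ∈ BAD, 1 / 2 ≤ ‖(∑ x ∈ C, ch (r * x)) / C.card‖) ∧
      (Q : ℝ) / C2.card ≤ h * (100 * a * I) * (200 * q0 * a * I : ℝ) ^ q := by
  have hQ0 : Q ≠ 0 := NeZero.ne Q
  have hh : 1 ≤ h := by
    rcases Nat.eq_zero_or_pos h with h0 | h0
    · rw [h0, zero_mul] at hQ; exact absurd hQ hQ0
    · exact h0
  have hH : 1 ≤ H := by
    rcases Nat.eq_zero_or_pos H with h0 | h0
    · rw [h0, mul_zero] at hQ; exact absurd hQ hQ0
    · exact h0
  have hHQ : H ≤ Q := by rw [hQ]; exact Nat.le_mul_of_pos_left H hh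
  have hHr : (1 : ℝ) ≤ H := by exact_mod_cast hH
  have hH0 : (0 : ℝ) ≤ H := by linarith
  have hq0r : (1 : ℝ) ≤ q0 := by exact_mod_cast hq0
  have har : (1 : ℝ) ≤ a := by exact_mod_cast ha
  have hIr : (1 : ℝ) ≤ I := by exact_mod_cast hI
  have hhr : (1 : ℝ) ≤ h := by exact_mod_cast hh
  have hqr : (q : ℝ) ≤ q0 := by exact_mod_cast hq
  have hq0' : (0 : ℝ) < q0 := by linarith
  have ha' : (0 : ℝ) < a := by linarith
  have hI' : (0 : ℝ) < I := by linarith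
  have hh' : (0 : ℝ) < h := by linarith
  have hH' : (0 : ℝ) < H := by linarith
  set ρ0 : ℝ := 1 / (100 * q0) with hρ0
  set θ0 : ℝ := 1 / 100 with hθ0
  have hρ0p : 0 < ρ0 := by positivity
  have hθ0p : 0 < θ0 := by positivity
  set B : ℕ → Finset (ZMod Q) := fun i =>
    Bohr (H : ℝ) σ ((1 + (i : ℝ) / I) * ρ0) ((1 + (i : ℝ) / I) * θ0) with hB
  set C2 : Finset (ZMod Q) := Bohr (H : ℝ) σ (ρ0 / (a * I)) (θ0 / (a * I)) with hC2
  have h0B : ∀ i, (0 : ZMod Q) ∈ B i := fun i =>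
    zero_mem_Bohr hH0 σ (by positivity) (by positivity)
  have h0C2 : (0 : ZMod Q) ∈ C2 := zero_mem_Bohr hH0 σ (by positivity) (by positivity)
  obtain ⟨i, hi, hcard⟩ := exists_double hI hI2 (fun i => (B i).card)
    (Finset.card_pos.2 ⟨0, h0B 0⟩) (by
      have := Finset.card_le_univ (B I)
      rwa [ZMod.card] at this)
  have hir : (i : ℝ) ≤ I := by exact_mod_cast hi.le
  have hiI : (i : ℝ) / I ≤ 1 := by rw [div_le_one hI']; exact hir
  have hiI0 : 0 ≤ (i : ℝ) / I := by positivity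
  have hCpos : (0 : ℝ) < ((B i).card : ℝ) := by
    exact_mod_cast Finset.card_pos.2 ⟨0, h0B i⟩
  refine ⟨B i, B (i + 1), C2, ⟨0, h0B i⟩, ⟨0, h0C2⟩, ?_, by exact_mod_cast hcard, ?_, ?_⟩
  · intro c hc u hu
    have h1 := sum_mem_Bohr hH0 (a := a) (σ := σ) (ρ := ρ0 / (a * I)) (θ := θ0 / (a * I))
      (by positivity) (by positivity) u hu
    have h2 := add_mem_Bohr h1 (neg_mem_Bohr hc)
    rw [← sub_eq_add_neg] at h2
    refine Bohr_mono hH0 σ (le_of_eq ?_) (le_of_eq ?_) h2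
    · push_cast
      field_simp
      ring
    · push_cast
      field_simp
      ring
  · intro r hr
    obtain ⟨δ, hδ, hrδ⟩ := hBAD r hr
    have h1 : ∀ x ∈ B i, ‖ch (r * x) - 1‖ ≤ 1 / 2 := by
      intro x hx
      have h2 := char_Bohr h H hQ σ r δ hδ hrδ (by positivity) (by positivity) hx
      have h3 : (q : ℝ) * ((1 + (i : ℝ) / I) * ρ0) ≤ 2 / 100 := by
        calc (q : ℝ) * ((1 + (i : ℝ) / I) * ρ0) ≤ q0 * ((1 + 1) * ρ0) := by gcongr
          _ = 2 / 100 := by rw [hρ0]; field_simp; norm_num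
      have h4 : (1 + (i : ℝ) / I) * θ0 ≤ 2 / 100 := by
        calc (1 + (i : ℝ) / I) * θ0 ≤ (1 + 1) * θ0 := by gcongr
          _ = 2 / 100 := by rw [hθ0]; norm_num
      have h5 := norm_ch_sub_one_le (r * x)
      have h6 : nrm (r * x) ≤ 4 / 100 := by linarith
      have h7 := Real.pi_lt_d2
      have h8 := Real.pi_pos
      have h9 : 2 * Real.pi * nrm (r * x) ≤ 2 * 3.15 * (4 / 100) := by
        have := nrm_nonneg (r * x)
        gcongr
      refine h5.trans (h9.trans ?_)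
      norm_num
    have h2 : ‖(∑ x ∈ B i, ch (r * x)) - ((B i).card : ℂ)‖ ≤ (B i).card / 2 := by
      have h3 : (∑ x ∈ B i, ch (r * x)) - ((B i).card : ℂ) = ∑ x ∈ B i, (ch (r * x) - 1) := by
        rw [Finset.sum_sub_distrib]
        simp
      rw [h3]
      calc ‖∑ x ∈ B i, (ch (r * x) - 1)‖ ≤ ∑ x ∈ B i, ‖ch (r * x) - 1‖ := norm_sum_le _ _
        _ ≤ ∑ x ∈ B i, (1 / 2 : ℝ) := Finset.sum_le_sum h1
        _ = (B i).card / 2 := by rw [Finset.sum_const, nsmul_eq_mul]; ring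
    have h3 : ((B i).card : ℝ) / 2 ≤ ‖∑ x ∈ B i, ch (r * x)‖ := by
      have h4 := norm_sub_norm_le ((B i).card : ℂ) (∑ x ∈ B i, ch (r * x))
      rw [norm_sub_rev] at h4
      have h5 : ‖((B i).card : ℂ)‖ = (B i).card := Complex.norm_natCast _
      rw [h5] at h4
      linarith
    rw [norm_div, Complex.norm_natCast, le_div_iff₀ hCpos]
    linarith
  · have haI : (1 : ℝ) ≤ a * I := by nlinarith
    have h1 : θ0 / (a * I) * H * (ρ0 / (a * I) / 2) ^ q ≤ (C2.card : ℝ) := by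
      refine card_Bohr_ge (H : ℝ) hHr (by exact_mod_cast hHQ) σ (by positivity) ?_ (by positivity)
        ?_
      · calc ρ0 / (a * I) ≤ ρ0 := div_le_self hρ0p.le haI
          _ ≤ 1 := by
            rw [hρ0, div_le_one (by positivity)]
            nlinarith
      · calc θ0 / (a * I) ≤ θ0 := div_le_self hθ0p.le haI
          _ ≤ 1 / 2 := by rw [hθ0]; norm_num
    have h2 : (0 : ℝ) < C2.card := by exact_mod_cast Finset.card_pos.2 ⟨0, h0C2⟩
    rw [div_le_iff₀ h2]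
    have h3 : (Q : ℝ) = h * (100 * a * I) * (200 * q0 * a * I : ℝ) ^ q *
        (θ0 / (a * I) * H * (ρ0 / (a * I) / 2) ^ q) := by
      have h4 : (200 * q0 * a * I : ℝ) ^ q * (ρ0 / (a * I) / 2) ^ q = 1 := by
        rw [← mul_pow]
        have : (200 * q0 * a * I : ℝ) * (ρ0 / (a * I) / 2) = 1 := by
          rw [hρ0]
          field_simp
          norm_num
        rw [this, one_pow]
      calc (Q : ℝ) = h * H := by rw [hQ]; push_cast; ring
        _ = h * (100 * a * I) * (θ0 / (a * I) * H) *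
            ((200 * q0 * a * I : ℝ) ^ q * (ρ0 / (a * I) / 2) ^ q) := by
          rw [h4, hθ0]
          field_simp
        _ = _ := by ring
    rw [h3]
    gcongr

end MP14ee70.TY
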