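import Mathlib
import Pool.Agent.Lib.MP_14ee70_nt.TY.Defs

/-!
# Project TY, file E/Signs: random signs

`prod_one_sub_ge`: `∏ (1 - a_i) ≥ 1 - ∑ a_i` for `a_i ∈ [0, 2]`: induction, `|∏_{i<n} (1 - a_i)| ≤ 1` and
`∏_{i ≤ n} = ∏_{i<n} - a_n ∏_{i<n} ≥ ∏_{i<n} - a_n`.
`signs`: for every `(m, m')`: `2^(-q) ∑_ε m^(i ∑ ε_j t_j) conj (m'^(i ∑ ε_j t_j)) = ∏_j cos (t_j log (m/m'))`
(real and imaginary parts: `∑_ε exp(i ∑ ε_j b_j) = ∏ (e^(i b_j) + e^(-i b_j))`), so
`2^(-q) ∑_ε |mu (∑ ε_j t_j)|^2 = E_{m,m'} ∏_j cos (t_j log(m/m')) ≥ 1 - ∑_j (1 - E_{m,m'} cos (t_j log (m/m')))` and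
`E_{m,m'} cos (t log(m/m')) = |mu t|^2`.
-/

namespace MP14ee70.TY

open Finset

theorem prod_one_sub_ge {ι : Type*} (s : Finset ι) (a : ι → ℝ) (h0 : ∀ i ∈ s, 0 ≤ a i)
    (h2 : ∀ i ∈ s, a i ≤ 2) : 1 - ∑ i ∈ s, a i ≤ ∏ i ∈ s, (1 - a i) := by
  classical
  induction s using Finset.induction_on with
  | empty => simp
  | @insert i s hi ih =>
    have h0i := h0 i (Finset.mem_insert_self i s)
    have h2i := h2 i (Finset.mem_insert_self i s)
    have h0s : ∀ j ∈ s, 0 ≤ a j := fun j hj => h0 j (Finset.mem_insert_of_mem hj)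
    have h2s : ∀ j ∈ s, a j ≤ 2 := fun j hj => h2 j (Finset.mem_insert_of_mem hj)
    have ih' := ih h0s h2s
    rw [Finset.sum_insert hi, Finset.prod_insert hi]
    have habs : |∏ j ∈ s, (1 - a j)| ≤ 1 := by
      rw [Finset.abs_prod]
      refine Finset.prod_le_one (fun j _ => abs_nonneg _) fun j hj => ?_
      rw [abs_le]
      constructor
      · linarith [h2s j hj]
      · linarith [h0s j hj]
    have hle : ∏ j ∈ s, (1 - a j) ≤ 1 := (le_abs_self _).trans habs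
    have hmul : a i * ∏ j ∈ s, (1 - a j) ≤ a i * 1 := mul_le_mul_of_nonneg_left hle h0i
    have hexp : (1 - a i) * ∏ j ∈ s, (1 - a j) =
        ∏ j ∈ s, (1 - a j) - a i * ∏ j ∈ s, (1 - a j) := by ring
    rw [hexp]
    linarith

/-- the signed sum `∑ ε_j t_j` -/
noncomputable def sgn {q : ℕ} (t : Fin q → ℝ) (ε : Fin q → Bool) : ℝ :=
  ∑ i, (if ε i then 1 else -1) * t i

theorem sum_cos_signs (q : ℕ) (b : Fin q → ℝ) :
    ∑ ε : Fin q → Bool, Real.cos (∑ i, (if ε i then 1 else -1) * b i) =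
      2 ^ q * ∏ i, Real.cos (b i) := by
  have key : ∑ ε : Fin q → Bool,
      Complex.exp (((∑ i, (if ε i then 1 else -1) * b i : ℝ) : ℂ) * Complex.I) =
      ((2 ^ q * ∏ i, Real.cos (b i) : ℝ) : ℂ) := by
    have h1 : ∀ ε : Fin q → Bool,
        Complex.exp (((∑ i, (if ε i then 1 else -1) * b i : ℝ) : ℂ) * Complex.I) =
        ∏ i, Complex.exp ((((if ε i then 1 else -1) * b i : ℝ) : ℂ) * Complex.I) := by
      intro ε
      rw [← Complex.exp_sum, Complex.ofReal_sum, Finset.sum_mul]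
    rw [Finset.sum_congr rfl fun ε _ => h1 ε]
    have h2 := Finset.prod_univ_sum (fun _ : Fin q => (Finset.univ : Finset Bool))
      (fun (i : Fin q) (e : Bool) =>
        Complex.exp ((((if e then 1 else -1) * b i : ℝ) : ℂ) * Complex.I))
    rw [Fintype.piFinset_univ] at h2
    rw [← h2]
    have h3 : ∀ i : Fin q, ∑ e : Bool,
        Complex.exp ((((if e then 1 else -1) * b i : ℝ) : ℂ) * Complex.I) =
        ((2 * Real.cos (b i) : ℝ) : ℂ) := by
      intro i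
      rw [Fintype.sum_bool]
      simp only [if_true, Bool.false_eq_true, if_false, one_mul, neg_mul, Complex.ofReal_neg]
      push_cast
      rw [Complex.two_cos, neg_mul]
    rw [Finset.prod_congr rfl fun i _ => h3 i]
    rw [← Complex.ofReal_prod, Finset.prod_mul_distrib, Finset.prod_const, Finset.card_univ,
      Fintype.card_fin]
  have h := congrArg Complex.re key
  rw [Complex.re_sum, Complex.ofReal_re] at h
  rw [← h]
  refine Finset.sum_congr rfl fun ε _ => ?_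
  rw [Complex.exp_ofReal_mul_I_re]

theorem norm_sq_mu (y : ℝ) (K : ℕ) (τ : ℝ) :
    ‖mu y K τ‖ ^ 2 = (∑ m ∈ MM y K, ∑ m' ∈ MM y K,
      Real.cos (τ * (Real.log m - Real.log m'))) / ((MM y K).card : ℝ) ^ 2 := by
  rw [mu, norm_div, div_pow, Complex.norm_natCast]
  congr 1
  rw [← Complex.normSq_eq_norm_sq, Complex.normSq_apply, Complex.re_sum, Complex.im_sum]
  have hre : ∀ m : ℕ, (ph τ m).re = Real.cos (τ * Real.log m) := fun m => by
    rw [ph, Complex.exp_ofReal_mul_I_re]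
  have him : ∀ m : ℕ, (ph τ m).im = Real.sin (τ * Real.log m) := fun m => by
    rw [ph, Complex.exp_ofReal_mul_I_im]
  simp only [hre, him]
  rw [Finset.sum_mul_sum, Finset.sum_mul_sum, ← Finset.sum_add_distrib]
  refine Finset.sum_congr rfl fun m _ => ?_
  rw [← Finset.sum_add_distrib]
  refine Finset.sum_congr rfl fun m' _ => ?_
  rw [mul_sub, Real.cos_sub]

theorem norm_sq_mu_le_one (y : ℝ) (K : ℕ) (τ : ℝ) : ‖mu y K τ‖ ^ 2 ≤ 1 := by
  rw [norm_sq_mu]
  refine div_le_one_of_le₀ ?_ (by positivity)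
  calc ∑ m ∈ MM y K, ∑ m' ∈ MM y K, Real.cos (τ * (Real.log m - Real.log m'))
      ≤ ∑ m ∈ MM y K, ∑ m' ∈ MM y K, (1 : ℝ) :=
        Finset.sum_le_sum fun m _ => Finset.sum_le_sum fun m' _ => Real.cos_le_one _
    _ = ((MM y K).card : ℝ) ^ 2 := by
        simp only [Finset.sum_const, nsmul_eq_mul, mul_one]
        ring

theorem signs (y : ℝ) (K q : ℕ) (hM : (MM y K).Nonempty) (t : Fin q → ℝ) :
    1 - ∑ i, (1 - ‖mu y K (t i)‖ ^ 2) ≤ (∑ ε : Fin q → Bool, ‖mu y K (sgn t ε)‖ ^ 2) / 2 ^ q := by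
  have hc : (0 : ℝ) < ((MM y K).card : ℝ) := by exact_mod_cast hM.card_pos
  have hc2 : (0 : ℝ) < ((MM y K).card : ℝ) ^ 2 := by positivity
  have h2 : (0 : ℝ) < 2 ^ q := by positivity
  have hR : (∑ ε : Fin q → Bool, ‖mu y K (sgn t ε)‖ ^ 2) / 2 ^ q =
      (∑ m ∈ MM y K, ∑ m' ∈ MM y K, ∏ i, Real.cos (t i * (Real.log m - Real.log m'))) /
        ((MM y K).card : ℝ) ^ 2 := by
    have h3 : ∀ ε : Fin q → Bool, ‖mu y K (sgn t ε)‖ ^ 2 =
        (∑ m ∈ MM y K, ∑ m' ∈ MM y K,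
          Real.cos (∑ i, (if ε i then 1 else -1) * (t i * (Real.log m - Real.log m')))) /
          ((MM y K).card : ℝ) ^ 2 := by
      intro ε
      rw [norm_sq_mu]
      congr 1
      refine Finset.sum_congr rfl fun m _ => Finset.sum_congr rfl fun m' _ => ?_
      rw [sgn, Finset.sum_mul]
      congr 1
      refine Finset.sum_congr rfl fun i _ => ?_
      ring
    rw [Finset.sum_congr rfl fun ε _ => h3 ε, ← Finset.sum_div, Finset.sum_comm]
    have h4 : ∀ m ∈ MM y K, ∑ ε : Fin q → Bool, ∑ m' ∈ MM y K,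
        Real.cos (∑ i, (if ε i then 1 else -1) * (t i * (Real.log m - Real.log m'))) =
        2 ^ q * ∑ m' ∈ MM y K, ∏ i, Real.cos (t i * (Real.log m - Real.log m')) := by
      intro m _
      rw [Finset.sum_comm, Finset.mul_sum]
      refine Finset.sum_congr rfl fun m' _ => ?_
      rw [sum_cos_signs]
    rw [Finset.sum_congr rfl h4, ← Finset.mul_sum]
    field_simp
  rw [hR, le_div_iff₀ hc2]
  have hL : (1 - ∑ i, (1 - ‖mu y K (t i)‖ ^ 2)) * ((MM y K).card : ℝ) ^ 2 =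
      ∑ m ∈ MM y K, ∑ m' ∈ MM y K,
        (1 - ∑ i, (1 - Real.cos (t i * (Real.log m - Real.log m')))) := by
    have h5 : ∀ i, (1 - ‖mu y K (t i)‖ ^ 2) * ((MM y K).card : ℝ) ^ 2 =
        ∑ m ∈ MM y K, ∑ m' ∈ MM y K,
          (1 - Real.cos (t i * (Real.log m - Real.log m'))) := by
      intro i
      rw [norm_sq_mu, sub_mul, div_mul_cancel₀ _ hc2.ne']
      simp only [Finset.sum_sub_distrib, Finset.sum_const, nsmul_eq_mul, mul_one, one_mul]
      ring
    rw [sub_mul, Finset.sum_mul, Finset.sum_congr rfl fun i _ => h5 i]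
    simp only [Finset.sum_sub_distrib, Finset.sum_const, nsmul_eq_mul, mul_one, one_mul]
    have h6 : ∑ x ∈ MM y K, ∑ x' ∈ MM y K, ∑ i : Fin q,
        Real.cos (t i * (Real.log x - Real.log x')) =
        ∑ i : Fin q, ∑ x ∈ MM y K, ∑ x' ∈ MM y K,
        Real.cos (t i * (Real.log x - Real.log x')) := by
      rw [Finset.sum_comm]
      have h8 : ∀ x ∈ MM y K, ∑ x' ∈ MM y K, ∑ i : Fin q,
          Real.cos (t i * (Real.log x' - Real.log x)) =
          ∑ i : Fin q, ∑ x' ∈ MM y K, Real.cos (t i * (Real.log x' - Real.log x)) :=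
        fun x _ => Finset.sum_comm
      rw [Finset.sum_congr rfl h8, Finset.sum_comm]
      exact Finset.sum_congr rfl fun i _ => Finset.sum_comm
    rw [h6]
    ring
  rw [hL]
  refine Finset.sum_le_sum fun m _ => Finset.sum_le_sum fun m' _ => ?_
  have h7 := prod_one_sub_ge (Finset.univ : Finset (Fin q))
    (fun i => 1 - Real.cos (t i * (Real.log m - Real.log m')))
    (fun i _ => by linarith [Real.cos_le_one (t i * (Real.log m - Real.log m'))])
    (fun i _ => by linarith [Real.neg_one_le_cos (t i * (Real.log m - Real.log m'))])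
  refine h7.trans (le_of_eq ?_)
  refine Finset.prod_congr rfl fun i _ => ?_
  ring

/-- If all `|mu (t i)|^2 ≥ 1 - δ` with `q δ ≤ 1/2`, then `|mu| ≥ 1/2` at at least `2^q / 4` of the signed sums. -/
theorem signs_count (y : ℝ) (K q : ℕ) (hM : (MM y K).Nonempty) (t : Fin q → ℝ) (δ : ℝ)
    (ht : ∀ i, 1 - δ ≤ ‖mu y K (t i)‖ ^ 2) (hδ : q * δ ≤ 1 / 2) :
    (2 : ℝ) ^ q / 4 ≤
      ((Finset.univ : Finset (Fin q → Bool)).filter fun ε => 1 / 2 ≤ ‖mu y K (sgn t ε)‖).card := by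
  have h1 := signs y K q hM t
  have h2 : (0 : ℝ) < 2 ^ q := by positivity
  have h3 : ∑ i, (1 - ‖mu y K (t i)‖ ^ 2) ≤ q * δ := by
    calc ∑ i, (1 - ‖mu y K (t i)‖ ^ 2) ≤ ∑ _i : Fin q, δ :=
          Finset.sum_le_sum fun i _ => by linarith [ht i]
      _ = q * δ := by simp
  rw [le_div_iff₀ h2] at h1
  have h4 : (2 : ℝ) ^ q / 2 ≤ ∑ ε : Fin q → Bool, ‖mu y K (sgn t ε)‖ ^ 2 := by
    refine le_trans ?_ h1
    have : 1 / 2 ≤ 1 - ∑ i, (1 - ‖mu y K (t i)‖ ^ 2) := by linarith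
    nlinarith
  classical
  have h5 : ∀ ε : Fin q → Bool, ‖mu y K (sgn t ε)‖ ^ 2 ≤
      1 / 4 + 3 / 4 * (if 1 / 2 ≤ ‖mu y K (sgn t ε)‖ then (1 : ℝ) else 0) := by
    intro ε
    split_ifs with h
    · linarith [norm_sq_mu_le_one y K (sgn t ε)]
    · have h6 := norm_nonneg (mu y K (sgn t ε))
      have h7 : ‖mu y K (sgn t ε)‖ < 1 / 2 := not_le.1 h
      nlinarith
  have h6 := h4.trans (Finset.sum_le_sum fun ε _ => h5 ε)
  rw [Finset.sum_add_distrib, ← Finset.mul_sum, Finset.sum_ite, Finset.sum_const_zero, add_zero,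
    Finset.sum_const, Finset.sum_const, nsmul_eq_mul, nsmul_eq_mul, Finset.card_univ] at h6
  have h8 : (Fintype.card (Fin q → Bool) : ℝ) = 2 ^ q := by
    simp
  rw [h8] at h6
  have h9 : (0 : ℝ) ≤ ((Finset.univ : Finset (Fin q → Bool)).filter
    fun ε => 1 / 2 ≤ ‖mu y K (sgn t ε)‖).card := by positivity
  linarith

end MP14ee70.TY
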