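import Mathlib
import Pool.Agent.Lib.MP_14ee70_nt.TY.E.Signs
import Pool.Agent.Lib.MP_14ee70_nt.TY.F.Mu

/-!
# Project TY, file E/Rank: the bad frequencies have small rank

Call `σ : Fin q → ℝ` dissociated if `|∑ δ_i σ_i| ≥ 1/2` for all `δ : Fin q → ℤ`, `|δ_i| ≤ 1`, `δ ≠ 0`.
(1) No dissociated family of `q0` elements of `X0`: by `signs_count` (`1 - |mu|^2 ≤ 1 - e^(-4v) ≤ 4 v`, `4 v q0 ≤ 1/2`)
`|mu| ≥ 1/2 ≥ e^(-2)` at `≥ 2^q0/4` signed sums; the differences of two different ones are `2 ∑ δ_i σ_i`, `δ ≠ 0`, of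
absolute value `≥ 1`; they are in `[-T, T]` as `|σ_i| ≤ T / q0`.  So `2^q0 / 4 ≤ e^lp`; but `q0 ≥ 2 lp + 4`, and
`(2 lp + 4) log 2 > lp + log 4`.
(2) Take the largest `q` for which a dissociated `σ : Fin q → X0` exists (`q = 0` does; `q < q0` by (1), a subfamily of a
dissociated family is dissociated).  For `x ∈ X0` the family `(σ, x)` is not dissociated:
`|∑ δ_i σ_i + δ' x| < 1/2` with `δ' ≠ 0`, i.e. `δ' = ± 1`.
-/

namespace MP14ee70.TY

open Finset

/-- dissociated families -/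
def Diss {q : ℕ} (σ : Fin q → ℝ) : Prop :=
  ∀ δ : Fin q → ℤ, (∀ i, |δ i| ≤ 1) → δ ≠ 0 → 1 / 2 ≤ |∑ i, (δ i : ℝ) * σ i|

/-- the difference of two signed sums -/
theorem sgn_sub {q : ℕ} (σ : Fin q → ℝ) (ε ε' : Fin q → Bool) :
    sgn σ ε - sgn σ ε' = 2 * ∑ i, (((if ε i then 1 else 0) - (if ε' i then 1 else 0) : ℤ) : ℝ) * σ i := by
  unfold sgn
  rw [← Finset.sum_sub_distrib, Finset.mul_sum]
  refine Finset.sum_congr rfl fun i _ => ?_
  cases ε i <;> cases ε' i <;> simp <;> ring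

theorem sgn_sep {q : ℕ} {σ : Fin q → ℝ} (hσ : Diss σ) {ε ε' : Fin q → Bool} (h : ε ≠ ε') :
    1 ≤ |sgn σ ε - sgn σ ε'| := by
  have h1 := hσ (fun i => (if ε i then 1 else 0) - (if ε' i then 1 else 0)) (fun i => by
    cases ε i <;> cases ε' i <;> simp) (fun h0 => h (by
    funext i
    have := congrFun h0 i
    revert this
    cases ε i <;> cases ε' i <;> simp))
  rw [sgn_sub, abs_mul, abs_two]
  linarith

theorem sgn_abs {q : ℕ} {σ : Fin q → ℝ} {T : ℝ} (hq : 0 < q) (h : ∀ i, |σ i| * q ≤ T)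
    (ε : Fin q → Bool) : |sgn σ ε| ≤ T := by
  have hq0 : (0 : ℝ) < q := by exact_mod_cast hq
  have h1 : |sgn σ ε| ≤ ∑ i, |σ i| := by
    unfold sgn
    refine (Finset.abs_sum_le_sum_abs _ _).trans (le_of_eq (Finset.sum_congr rfl fun i _ => ?_))
    cases ε i <;> simp
  have h2 : (∑ i, |σ i|) * q ≤ q * T := by
    rw [Finset.sum_mul]
    refine (Finset.sum_le_card_nsmul _ _ T fun i _ => h i).trans (le_of_eq ?_)
    rw [Finset.card_univ, Fintype.card_fin, nsmul_eq_mul]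
  have h3 : (∑ i, |σ i|) ≤ T := by
    rw [mul_comm] at h2
    exact le_of_mul_le_mul_left h2 hq0
  exact h1.trans h3

theorem rank (y T lp v : ℝ) (K q0 : ℕ) (hM : (MM y K).Nonempty) (X0 : Finset ℝ) (hlp : 0 ≤ lp)
    (hv : 0 ≤ v) (hX : ∀ x ∈ X0, |x| * q0 ≤ T) (hmu : ∀ x ∈ X0, Real.exp (-(2 * v)) ≤ ‖mu y K x‖)
    (hvq : 8 * v * q0 ≤ 1) (hq0 : 2 * lp + 4 ≤ q0)
    (hlarge : ∀ TT : Finset ℝ, Sep T TT → (∀ τ ∈ TT, Real.exp (-2) ≤ ‖mu y K τ‖) →
      (TT.card : ℝ) ≤ Real.exp lp) :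
    ∃ q : ℕ, q < q0 ∧ ∃ σ : Fin q → ℝ, (∀ i, σ i ∈ X0) ∧
      ∀ x ∈ X0, ∃ δ : Fin q → ℤ, (∀ i, |δ i| ≤ 1) ∧ |x - ∑ i, (δ i : ℝ) * σ i| < 1 / 2 := by
  classical
  have hq0' : 0 < q0 := by
    have : (0 : ℝ) < q0 := by linarith
    exact_mod_cast this
  -- no dissociated family of length q0
  have hno : ¬ ∃ σ : Fin q0 → ℝ, (∀ i, σ i ∈ X0) ∧ Diss σ := by
    rintro ⟨σ, hσ, hd⟩
    have h1 := signs_count y K q0 hM σ (4 * v) (fun i => by
      have h2 := hmu _ (hσ i)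
      have h3 : Real.exp (-(2 * v)) ^ 2 ≤ ‖mu y K (σ i)‖ ^ 2 :=
        pow_le_pow_left₀ (Real.exp_pos _).le h2 2
      have h4 : Real.exp (-(2 * v)) ^ 2 = Real.exp (-(4 * v)) := by
        rw [← Real.exp_nat_mul]
        congr 1
        push_cast
        ring
      have h5 := Real.add_one_le_exp (-(4 * v))
      linarith) (by linarith)
    set E := (Finset.univ : Finset (Fin q0 → Bool)).filter fun ε => 1 / 2 ≤ ‖mu y K (sgn σ ε)‖
      with hE
    have hinj : Function.Injective (sgn σ) := by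
      intro ε ε' h
      by_contra hne
      have := sgn_sep hd hne
      rw [h, sub_self, abs_zero] at this
      linarith
    have h2 := hlarge (E.image (sgn σ)) ⟨?_, ?_⟩ ?_
    · rw [Finset.card_image_of_injective _ hinj] at h2
      have h3 : (2 : ℝ) ^ q0 ≤ 4 * Real.exp lp := by linarith
      have h4 := Real.log_two_gt_d9
      have h5 : (2 : ℝ) ^ q0 = Real.exp (q0 * Real.log 2) := by
        rw [mul_comm, ← Real.rpow_def_of_pos two_pos, Real.rpow_natCast]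
      have h6 : 4 * Real.exp lp = Real.exp (lp + 2 * Real.log 2) := by
        rw [Real.exp_add, two_mul, Real.exp_add, Real.exp_log two_pos]
        ring
      rw [h5, h6, Real.exp_le_exp] at h3
      have h7 : (2 * lp + 4) * Real.log 2 ≤ q0 * Real.log 2 :=
        mul_le_mul_of_nonneg_right hq0 (by linarith)
      nlinarith
    · intro a ha
      obtain ⟨ε, _, rfl⟩ := Finset.mem_image.1 ha
      exact sgn_abs hq0' (fun i => hX _ (hσ i)) ε
    · intro a ha b hb hab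
      obtain ⟨ε, _, rfl⟩ := Finset.mem_image.1 ha
      obtain ⟨ε', _, rfl⟩ := Finset.mem_image.1 hb
      exact sgn_sep hd fun h => hab (by rw [h])
    · intro a ha
      obtain ⟨ε, hε, rfl⟩ := Finset.mem_image.1 ha
      have h3 := (Finset.mem_filter.1 hε).2
      refine le_trans ?_ h3
      rw [Real.exp_neg, one_div]
      refine inv_anti₀ two_pos ?_
      have := Real.add_one_le_exp (2 : ℝ)
      linarith
  -- a maximal one
  have hmax : ∃ q < q0, (∃ σ : Fin q → ℝ, (∀ i, σ i ∈ X0) ∧ Diss σ) ∧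
      ¬ ∃ σ : Fin (q + 1) → ℝ, (∀ i, σ i ∈ X0) ∧ Diss σ := by
    by_contra hcon
    push Not at hcon
    apply hno
    have key : ∀ q, q ≤ q0 → ∃ σ : Fin q → ℝ, (∀ i, σ i ∈ X0) ∧ Diss σ := by
      intro q
      induction q with
      | zero =>
        intro _
        refine ⟨fun i => i.elim0, fun i => i.elim0, fun δ _ hδ => ?_⟩
        exact absurd (funext fun i => i.elim0) hδ
      | succ q ih =>
        intro hq
        exact hcon q (by omega) (ih (by omega))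
    exact key q0 le_rfl
  obtain ⟨q, hq, ⟨σ, hσ, hd⟩, hn⟩ := hmax
  refine ⟨q, hq, σ, hσ, fun x hx => ?_⟩
  have h1 : ¬ Diss (Fin.cons x σ : Fin (q + 1) → ℝ) := by
    intro h
    apply hn
    refine ⟨Fin.cons x σ, fun i => ?_, h⟩
    refine Fin.cases ?_ (fun i => ?_) i
    · rw [Fin.cons_zero]
      exact hx
    · rw [Fin.cons_succ]
      exact hσ i
  unfold Diss at h1
  push Not at h1
  obtain ⟨δ, hδ, hδ0, h2⟩ := h1
  rw [Fin.sum_univ_succ, Fin.cons_zero] at h2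
  simp only [Fin.cons_succ] at h2
  have h3 := abs_le.1 (hδ 0)
  have h4 : δ 0 = 0 ∨ δ 0 = 1 ∨ δ 0 = -1 := by omega
  rcases h4 with h4 | h4 | h4
  · exfalso
    rw [h4, Int.cast_zero, zero_mul, zero_add] at h2
    have h5 := hd (fun i => δ i.succ) (fun i => hδ _) (fun h0 => hδ0 (by
      funext i
      refine Fin.cases ?_ (fun i => ?_) i
      · exact h4
      · exact congrFun h0 i))
    linarith
  · refine ⟨fun i => -δ i.succ, fun i => by rw [abs_neg]; exact hδ _, ?_⟩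
    rw [h4, Int.cast_one, one_mul] at h2
    refine lt_of_eq_of_lt ?_ h2
    congr 1
    rw [sub_eq_add_neg, ← Finset.sum_neg_distrib]
    congr 1
    refine Finset.sum_congr rfl fun i _ => ?_
    push_cast
    ring
  · refine ⟨fun i => δ i.succ, fun i => hδ _, ?_⟩
    rw [h4] at h2
    rw [abs_sub_comm]
    refine lt_of_eq_of_lt ?_ h2
    congr 1
    push_cast
    ring

end MP14ee70.TY
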