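import Mathlib
import Pool.Agent.Lib.MP_14ee70_nt.TY.Defs3
import Pool.Agent.Lib.MP_14ee70_nt.TY.E.Rank
import Pool.Agent.Lib.MP_14ee70_nt.TY.E.BohrMain
import Pool.Agent.Lib.MP_14ee70_nt.TY.F.Nu

/-!
# Project TY, file E/BadBohr: the regular Bohr set of the bad frequencies

`lp = CT (log L)^3 / sqrt η`, `v2 = 4 lp / k`, `q0 = ⌈2 lp⌉ + 4`.  `v2 ≥ η/3` (`12 lp ≥ k η`: `k η ≤ log y / k ≤ L^(3/5)/L^(9/20) = L^(3/20)`,
`lp ≥ CT η^(-1/2) ≥ CT L^(1/6)`), `v2 ≤ 1/10`, `8 v2 q0 ≤ 1` (`k ≥ 64 lp^2 + 160 lp + ..`, from `k η ≥ C (log L)^7`): `bad_facts` gives for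
`r ∈ BadS`: `|tau r| ≤ N^2`, `|mu (tau r)| ≥ e^(-2 v2)`.  `rank` for `X0 = image tau BadS`, `T = N^3` (`N^2 q0 ≤ N^3`), `hlarge` = `F2aProp`.
Choose preimages of the `σ_i`.  `bohr_main` with `h = hh L`, `H = HH N`, `I = ⌈4L⌉` (`Q = h H ≤ (5L) e^(2L) ≤ 2^(4L)`).
`Q/#C2 ≤ h (100 a I) (200 q0 a I)^q ≤ exp (C (log L)^4 / sqrt η)` since `a, I, h, q0 ≤ 5 L`, `q ≤ q0 ≤ C (log L)^3/sqrt η`.
-/

namespace MP14ee70.TY

open Finset

theorem bad_bohr (CT C' : ℝ) (hCT : 0 < CT) (hF : F2aProp CT C') : ∃ C : ℝ,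
    ∀ (N k : ℕ) (L y η : ℝ) [NeZero (QQ N L)], RegF C N k L y η → ∀ a : ℕ, 1 ≤ a → (a : ℝ) ≤ L →
    ∃ Cc Cp C2 : Finset (ZMod (QQ N L)), Cc.Nonempty ∧ C2.Nonempty ∧
      (∀ c ∈ Cc, ∀ u : Fin a → ZMod (QQ N L), (∀ i, u i ∈ C2) → (∑ i, u i) - c ∈ Cp) ∧
      (Cp.card : ℝ) ≤ 2 * Cc.card ∧
      (∀ r ∈ BadS N L y η (v2 CT k L η), 1 / 2 ≤ ‖(∑ x ∈ Cc, ch (r * x)) / Cc.card‖) ∧
      ((QQ N L : ℕ) : ℝ) / C2.card ≤ Real.exp (C * Real.log L ^ 4 / Real.sqrt η) := by
  classical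
  obtain ⟨C1, hbad⟩ := bad_facts
  obtain ⟨C2, hcard⟩ := card_MM
  obtain ⟨C3, hη1⟩ := η_small 1
  have h5CT : 0 < 5 / CT := by positivity
  obtain ⟨C, hC⟩ : ∃ C : ℝ, C = |C1| + |C2| + |C3| + |C'| + 5 / CT + 340 * CT + 128 * CT ^ 2 + 3000 :=
    ⟨_, rfl⟩
  have hCT2 : 0 ≤ CT ^ 2 := sq_nonneg _
  have a1 := abs_nonneg C1
  have a2 := abs_nonneg C2
  have a3 := abs_nonneg C3
  have a4 := abs_nonneg C'
  refine ⟨C, ?_⟩
  intro N k L y η _ hR a ha haL
  have hR1 : RegF C1 N k L y η := hR.mono (by linarith [le_abs_self C1])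
  have hR2 : RegF C2 N k L y η := hR.mono (by linarith [le_abs_self C2])
  have hR3 : RegF C3 N k L y η := hR.mono (by linarith [le_abs_self C3])
  have hR' : RegF C' N k L y η := hR.mono (by linarith [le_abs_self C'])
  have hη := hR.η_pos
  have hηle : η ≤ 1 := by have := hη1 N k L y η hR3; linarith
  obtain ⟨lam, hlam⟩ : ∃ lam : ℝ, lam = Real.log L := ⟨_, rfl⟩
  have hlamC : C ≤ lam := by rw [hlam]; exact hR.logL
  have hlam3000 : 3000 ≤ lam := by linarith
  have hlam1 : 1 ≤ lam := by linarith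
  have hL1 := hR.one_le_L
  have hLpos : 0 < L := by linarith
  have hLexp : L = Real.exp lam := by rw [hlam, Real.exp_log hLpos]
  have hlamL : lam + 1 ≤ L := by rw [hLexp]; exact Real.add_one_le_exp lam
  obtain ⟨sη, hsη⟩ : ∃ sη : ℝ, sη = Real.sqrt η := ⟨_, rfl⟩
  have hs0 : 0 < sη := by rw [hsη]; exact Real.sqrt_pos.2 hη
  have hs2 : sη ^ 2 = η := by rw [hsη]; exact Real.sq_sqrt hη.le
  have hs1 : sη ≤ 1 := by
    rw [hsη, Real.sqrt_le_left (by norm_num)]
    linarith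
  have hkpos : (0 : ℝ) < k := by
    have := hR.one_le_k
    exact_mod_cast this
  have hkC : C ≤ k := hR.kbig
  have hkη : C * lam ^ 7 ≤ k * η := by rw [hlam]; exact hR.kη
  obtain ⟨lp, hlp⟩ : ∃ lp : ℝ, lp = CT * lam ^ 3 / sη := ⟨_, rfl⟩
  have hlp0 : 0 < lp := by rw [hlp]; positivity
  have hlps : lp * sη = CT * lam ^ 3 := by rw [hlp]; field_simp
  have hv2 : v2 CT k L η = 4 * lp / k := by
    unfold v2
    rw [hlp, ← hlam, ← hsη]
    field_simp
  -- `k ≥ 64 lp^2 + 160 lp`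
  have hkbig1 : 64 * lp ^ 2 ≤ k / 2 := by
    have e : 64 * lp ^ 2 * η = 64 * CT ^ 2 * lam ^ 6 := by
      rw [← hs2]
      calc 64 * lp ^ 2 * sη ^ 2 = 64 * (lp * sη) ^ 2 := by ring
        _ = _ := by rw [hlps]; ring
    have h1 : 64 * CT ^ 2 * lam ^ 6 ≤ C / 2 * lam ^ 7 := by
      have h2 : lam ^ 6 ≤ lam ^ 7 := pow_le_pow_right₀ hlam1 (by norm_num)
      exact mul_le_mul (by linarith) h2 (by positivity) (by linarith)
    have h3 : 64 * lp ^ 2 * η ≤ k / 2 * η := by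
      rw [e]
      linarith
    exact le_of_mul_le_mul_right h3 hη
  have hkbig2 : 160 * lp ≤ k / 2 := by
    have h0 : 160 * lp * η ≤ 160 * CT * lam ^ 3 := by
      rw [← hs2]
      calc 160 * lp * sη ^ 2 = 160 * (lp * sη) * sη := by ring
        _ = 160 * (CT * lam ^ 3) * sη := by rw [hlps]
        _ ≤ 160 * (CT * lam ^ 3) * 1 := mul_le_mul_of_nonneg_left hs1 (by positivity)
        _ = _ := by ring
    have h1 : 160 * CT * lam ^ 3 ≤ C / 2 * lam ^ 7 := by
      have h2 : lam ^ 3 ≤ lam ^ 7 := pow_le_pow_right₀ hlam1 (by norm_num)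
      exact mul_le_mul (by linarith) h2 (by positivity) (by linarith)
    have h3 : 160 * lp * η ≤ k / 2 * η := by linarith
    exact le_of_mul_le_mul_right h3 hη
  have hkL : (k : ℝ) ≤ L := by
    have := hR.k_hi
    have h1k : (1 : ℝ) ≤ k := by linarith
    nlinarith
  have hNpos : (0 : ℝ) < N := by
    have := hR.one_le_N
    exact_mod_cast this
  have hNexp : (N : ℝ) = Real.exp L := by rw [hR.hL, Real.exp_log hNpos]
  have hLN : L ≤ N := by
    rw [hNexp]
    linarith [Real.add_one_le_exp L]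
  -- `q0`
  obtain ⟨q0, hq0⟩ : ∃ q0 : ℕ, q0 = ⌈2 * lp⌉₊ + 4 := ⟨_, rfl⟩
  have hq0lo : 2 * lp + 4 ≤ (q0 : ℝ) := by
    rw [hq0]
    push_cast
    linarith [Nat.le_ceil (2 * lp)]
  have hq0hi : (q0 : ℝ) ≤ 2 * lp + 5 := by
    rw [hq0]
    push_cast
    linarith [Nat.ceil_lt_add_one (show 0 ≤ 2 * lp by positivity)]
  have hq0k : (q0 : ℝ) ≤ k := by linarith
  -- bounds of `v2`
  have hv2a : η / 3 ≤ v2 CT k L η := by
    rw [hv2, div_le_div_iff₀ (by norm_num) hkpos]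
    have h1 : η * k ≤ L ^ (3 / 20 : ℝ) := by
      have h2 : η * k * L ^ (9 / 20 : ℝ) ≤ L ^ (3 / 5 : ℝ) := by
        calc η * k * L ^ (9 / 20 : ℝ) ≤ η * k * k :=
              mul_le_mul_of_nonneg_left hR.k_lo (by positivity)
          _ = η * (k : ℝ) ^ 2 := by ring
          _ ≤ _ := hR.ηk.trans hR.logy_le
      have e : L ^ (3 / 20 : ℝ) = L ^ (3 / 5 : ℝ) / L ^ (9 / 20 : ℝ) := by
        rw [← Real.rpow_sub hLpos]; norm_num
      rw [e, le_div_iff₀ (Real.rpow_pos_of_pos hLpos _)]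
      exact h2
    have h2 : sη ≤ L ^ (-(1 / 6) : ℝ) := by
      have h3 : sη ^ 2 ≤ (L ^ (-(1 / 6) : ℝ)) ^ 2 := by
        rw [hs2, ← Real.rpow_natCast, ← Real.rpow_mul hLpos.le]
        refine hR.η_hi.trans (le_of_eq ?_)
        norm_num
      exact le_of_sq_le_sq h3 (Real.rpow_pos_of_pos hLpos _).le
    have h3 : L ^ (1 / 6 : ℝ) * sη ≤ 1 := by
      calc L ^ (1 / 6 : ℝ) * sη ≤ L ^ (1 / 6 : ℝ) * L ^ (-(1 / 6) : ℝ) :=
            mul_le_mul_of_nonneg_left h2 (Real.rpow_pos_of_pos hLpos _).le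
        _ = 1 := by rw [← Real.rpow_add hLpos]; norm_num
    have h4 : 1 ≤ 12 * CT * L ^ (1 / 60 : ℝ) := by
      rw [Real.rpow_def_of_pos hLpos, ← hlam]
      have h5 := Real.add_one_le_exp (lam * (1 / 60))
      have h6 : 5 / CT ≤ lam := by linarith
      rw [div_le_iff₀ hCT] at h6
      nlinarith
    have h5 : L ^ (3 / 20 : ℝ) * sη ≤ 12 * CT := by
      have e : L ^ (1 / 6 : ℝ) = L ^ (3 / 20 : ℝ) * L ^ (1 / 60 : ℝ) := by
        rw [← Real.rpow_add hLpos]; norm_num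
      rw [e] at h3
      have hp : 0 < L ^ (3 / 20 : ℝ) * sη := mul_pos (Real.rpow_pos_of_pos hLpos _) hs0
      calc L ^ (3 / 20 : ℝ) * sη = L ^ (3 / 20 : ℝ) * sη * 1 := by ring
        _ ≤ L ^ (3 / 20 : ℝ) * sη * (12 * CT * L ^ (1 / 60 : ℝ)) :=
            mul_le_mul_of_nonneg_left h4 hp.le
        _ = 12 * CT * (L ^ (3 / 20 : ℝ) * L ^ (1 / 60 : ℝ) * sη) := by ring
        _ ≤ 12 * CT * 1 := mul_le_mul_of_nonneg_left h3 (by positivity)
        _ = _ := by ring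
    have h6 : L ^ (3 / 20 : ℝ) ≤ 12 * lp := by
      have h7 : L ^ (3 / 20 : ℝ) * sη ≤ 12 * lp * sη := by
        have h8 : (1 : ℝ) ≤ lam ^ 3 := one_le_pow₀ hlam1
        have h9 : 12 * lp * sη = 12 * CT * lam ^ 3 := by
          calc 12 * lp * sη = 12 * (lp * sη) := by ring
            _ = _ := by rw [hlps]; ring
        rw [h9]
        nlinarith
      exact le_of_mul_le_mul_right h7 hs0
    linarith
  have hv2b : v2 CT k L η ≤ 1 / 10 := by
    rw [hv2, div_le_div_iff₀ hkpos (by norm_num)]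
    linarith
  have hv2c : 8 * v2 CT k L η * q0 ≤ 1 := by
    rw [hv2]
    have h1 : 8 * (4 * lp / k) * q0 = (32 * lp * q0) / k := by ring
    rw [h1, div_le_one hkpos]
    have h2 : 32 * lp * q0 ≤ 32 * lp * (2 * lp + 5) :=
      mul_le_mul_of_nonneg_left hq0hi (by positivity)
    nlinarith
  have hv20 : 0 ≤ v2 CT k L η := by rw [hv2]; positivity
  -- the rank
  have hM : (MM y (K0 L)).Nonempty := by
    rw [← Finset.card_pos]
    have h1 := hcard N k L y η hR2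
    have h2 : (0 : ℝ) < (MM y (K0 L)).card := lt_of_lt_of_le (by
      have := hR.ypos
      positivity) h1
    exact_mod_cast h2
  have hbf := hbad N k L y η hR1 (v2 CT k L η) hv2a hv2b
  obtain ⟨q, hq, σ, hσ, hcov⟩ := rank y ((N : ℝ) ^ 3) lp (v2 CT k L η) (K0 L) q0 hM
    ((BadS N L y η (v2 CT k L η)).image (tau N L)) hlp0.le hv20
    (by
      intro x hx
      obtain ⟨r, hr, rfl⟩ := Finset.mem_image.1 hx
      have h1 := (hbf r hr).1
      calc |tau N L r| * q0 ≤ (N : ℝ) ^ 2 * N :=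
            mul_le_mul h1 (hq0k.trans (hkL.trans hLN)) (by positivity) (by positivity)
        _ = _ := by ring)
    (by
      intro x hx
      obtain ⟨r, hr, rfl⟩ := Finset.mem_image.1 hx
      exact (hbf r hr).2)
    hv2c hq0lo
    (by
      intro TT h1 h2
      have h3 := hF N k L y η hR' TT h1 h2
      rw [← hlam, ← hsη, ← hlp] at h3
      exact h3)
  -- preimages
  have hpre : ∀ i, ∃ r, r ∈ BadS N L y η (v2 CT k L η) ∧ tau N L r = σ i := fun i =>
    Finset.mem_image.1 (hσ i)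
  choose ρ hρ1 hρ2 using hpre
  have hq' : q ≤ q0 := hq.le
  have hq01 : 1 ≤ q0 := by omega
  have hhh : (hh L : ℝ) ≤ 5 * L := by
    have h4 : (hh L : ℝ) < 4 * L + 1 := Nat.ceil_lt_add_one (by linarith)
    linarith
  have hhlo : 4 * L ≤ (hh L : ℝ) := Nat.le_ceil _
  have hh1 : 1 ≤ hh L := by
    have : (1 : ℝ) ≤ (hh L : ℝ) := by linarith
    exact_mod_cast this
  have hI2 : QQ N L ≤ 2 ^ (hh L) := by
    have h1 : ((QQ N L : ℕ) : ℝ) ≤ (2 : ℝ) ^ (hh L) := by
      have e1 : ((QQ N L : ℕ) : ℝ) = hh L * (N : ℝ) ^ 2 := by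
        unfold QQ HH
        push_cast
        ring
      have e2 : (N : ℝ) ^ 2 = Real.exp (2 * L) := by
        rw [hNexp, ← Real.exp_nat_mul]
        norm_num
      have e3 : (2 : ℝ) ^ (hh L) = Real.exp (hh L * Real.log 2) := by
        rw [Real.exp_nat_mul, Real.exp_log (by norm_num)]
      have hlog2 := Real.log_two_gt_d9
      have h2 : Real.exp (2 * L) * Real.exp (L / 2) ≤ Real.exp (hh L * Real.log 2) := by
        rw [← Real.exp_add]
        apply Real.exp_le_exp.2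
        have h3 : 4 * L * 0.69 ≤ hh L * Real.log 2 :=
          mul_le_mul hhlo (by linarith) (by norm_num) (by positivity)
        linarith
      have h3 : 5 * L ≤ Real.exp (L / 2) := by
        have h4 : Real.exp (L / 2) = Real.exp (L / 4) ^ 2 := by
          rw [← Real.exp_nat_mul]
          congr 1
          push_cast
          ring
        have h5 : L / 4 ≤ Real.exp (L / 4) := by linarith [Real.add_one_le_exp (L / 4)]
        rw [h4]
        have h6 : (L / 4) ^ 2 ≤ Real.exp (L / 4) ^ 2 := pow_le_pow_left₀ (by positivity) h5 2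
        nlinarith
      rw [e1, e2, e3]
      calc (hh L : ℝ) * Real.exp (2 * L) ≤ Real.exp (L / 2) * Real.exp (2 * L) :=
            mul_le_mul_of_nonneg_right (hhh.trans h3) (Real.exp_pos _).le
        _ = Real.exp (2 * L) * Real.exp (L / 2) := mul_comm _ _
        _ ≤ _ := h2
    exact_mod_cast h1
  obtain ⟨Cc, Cp, C2', h1, h2, h3, h4, h5, h6⟩ := bohr_main (Q := QQ N L) (hh L) (HH N) rfl q q0 a (hh L) hq' hq01
    ha hh1 hI2 ρ (BadS N L y η (v2 CT k L η)) (by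
      intro r hr
      obtain ⟨δ, hδ, hx⟩ := hcov (tau N L r) (Finset.mem_image_of_mem _ hr)
      refine ⟨δ, hδ, ?_⟩
      have e : ∀ i, (δ i : ℝ) * (2 * Real.pi * ((ρ i).valMinAbs : ℝ) / hh L) = (δ i : ℝ) * σ i := by
        intro i
        rw [← hρ2 i]
        rfl
      rw [Finset.sum_congr rfl fun i _ => e i]
      exact hx)
  refine ⟨Cc, Cp, C2', h1, h2, h3, h4, h5, h6.trans ?_⟩
  have ha0 : (1 : ℝ) ≤ a := by exact_mod_cast ha
  have hq0L : (q0 : ℝ) ≤ L := hq0k.trans hkL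
  have hL3 : (hh L : ℝ) * (100 * a * hh L) ≤ 2500 * L ^ 3 := by
    have h7 : (hh L : ℝ) * (100 * a * hh L) ≤ (5 * L) * (100 * L * (5 * L)) := by
      refine mul_le_mul hhh ?_ (by positivity) (by positivity)
      exact mul_le_mul (by linarith) hhh (by positivity) (by positivity)
    refine h7.trans (le_of_eq ?_)
    ring
  have hL4 : (200 * q0 * a * hh L : ℝ) ≤ 1000 * L ^ 3 := by
    have h7 : (200 * q0 * a * hh L : ℝ) ≤ 200 * L * L * (5 * L) := by
      refine mul_le_mul ?_ hhh (by positivity) (by positivity)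
      exact mul_le_mul (by linarith) haL (by positivity) (by positivity)
    refine h7.trans (le_of_eq ?_)
    ring
  have e1000 : (2500 : ℝ) * L ^ 3 ≤ Real.exp (4 * lam) := by
    have h7 : Real.exp (4 * lam) = L ^ 3 * L := by
      rw [hLexp]
      rw [← Real.exp_nat_mul, ← Real.exp_add]
      congr 1
      push_cast
      ring
    rw [h7]
    have h8 : 2500 ≤ L := by linarith
    have h9 : 0 < L ^ 3 := by positivity
    nlinarith
  have hpow : (200 * q0 * a * hh L : ℝ) ^ q ≤ Real.exp (q0 * (4 * lam)) := by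
    have h7 : (200 * q0 * a * hh L : ℝ) ≤ Real.exp (4 * lam) := by
      have : 0 < L ^ 3 := by positivity
      linarith
    calc (200 * q0 * a * hh L : ℝ) ^ q ≤ Real.exp (4 * lam) ^ q :=
          pow_le_pow_left₀ (by positivity) h7 q
      _ ≤ Real.exp (4 * lam) ^ q0 := pow_le_pow_right₀ (Real.one_le_exp (by positivity)) hq'
      _ = _ := by rw [← Real.exp_nat_mul]
  calc (hh L : ℝ) * (100 * a * hh L) * (200 * q0 * a * hh L : ℝ) ^ q
      ≤ Real.exp (4 * lam) * Real.exp (q0 * (4 * lam)) :=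
        mul_le_mul (hL3.trans e1000) hpow (by positivity) (Real.exp_pos _).le
    _ = Real.exp (4 * lam + q0 * (4 * lam)) := by rw [Real.exp_add]
    _ ≤ Real.exp (C * Real.log L ^ 4 / Real.sqrt η) := by
        apply Real.exp_le_exp.2
        rw [← hlam, ← hsη, le_div_iff₀ hs0]
        have h7 : q0 * (4 * lam) ≤ (2 * lp + 5) * (4 * lam) :=
          mul_le_mul_of_nonneg_right hq0hi (by positivity)
        have h8 : (4 * lam + q0 * (4 * lam)) * sη ≤ (4 * lam + (2 * lp + 5) * (4 * lam)) * sη :=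
          mul_le_mul_of_nonneg_right (by linarith) hs0.le
        have h9 : (4 * lam + (2 * lp + 5) * (4 * lam)) * sη = 8 * lam * (lp * sη) + 24 * lam * sη := by
          ring
        rw [h9, hlps] at h8
        have h10 : 24 * lam * sη ≤ 24 * lam := by
          have : 24 * lam * sη ≤ 24 * lam * 1 := mul_le_mul_of_nonneg_left hs1 (by positivity)
          linarith
        have h11 : lam ≤ lam ^ 4 := by
          calc lam = lam ^ 1 := (pow_one _).symm
            _ ≤ _ := pow_le_pow_right₀ hlam1 (by norm_num)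
        have h12 : (8 * CT + 24) * lam ^ 4 ≤ C * lam ^ 4 :=
          mul_le_mul_of_nonneg_right (by linarith) (by positivity)
        nlinarith

end MP14ee70.TY
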